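import Mathlib

set_option autoImplicit false

namespace Pool.Agent.Results.MP_c502b8_gt.CountableNetworkFactor

open Filter Topology

universe u v

private theorem exists_cluster {G : Type u} [TopologicalSpace G] [CountablyCompactSpace G]
    (u : ℕ → G) : ∃ g : G, ∀ V ∈ 𝓝 g, ∀ m : ℕ, ∃ n, m ≤ n ∧ u n ∈ V := by
  obtain ⟨g, -, hg⟩ := CountablyCompactSpace.isCountablyCompact_univ.seq_clusterPt u
    (Eventually.of_forall fun _ => Set.mem_univ _)
  exact ⟨g, fun V hV m => (frequently_atTop.1 (hg.frequently hV)) m⟩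

/-- If `G` is a countably compact topological group all of whose closed subgroups are separable
and `H` is a topological group with a countable network `𝒩`, then every closed subgroup of
`G × H` is separable. -/
theorem result (G : Type u) (H : Type v) [Group G] [TopologicalSpace G] [IsTopologicalGroup G]
    [CountablyCompactSpace G] [Group H] [tH : TopologicalSpace H] [IsTopologicalGroup H]
    (hsep : ∀ M : Subgroup G, IsClosed (M : Set G) → TopologicalSpace.SeparableSpace M)
    (hnet : ∃ 𝒩 : Set (Set H), 𝒩.Countable ∧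
      ∀ (x : H) (U : Set H), IsOpen U → x ∈ U → ∃ N ∈ 𝒩, x ∈ N ∧ N ⊆ U)
    (K : Subgroup (G × H)) (hK : IsClosed (K : Set (G × H))) :
    TopologicalSpace.SeparableSpace K := by
  obtain ⟨N, hNc, hN⟩ := hnet
  -- the finer second countable topology on H
  have hfine : TopologicalSpace.generateFrom N ≤ tH := by
    intro U hU
    have hUeq : U = ⋃₀ {A | A ∈ N ∧ A ⊆ U} := by
      ext x
      constructor
      · intro hx
        obtain ⟨A, hA, hxA, hAU⟩ := hN x U hU hx
        exact ⟨A, ⟨hA, hAU⟩, hxA⟩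
      · rintro ⟨A, ⟨_, hAU⟩, hxA⟩
        exact hAU hxA
    rw [hUeq]
    apply @isOpen_sUnion H (TopologicalSpace.generateFrom N)
    rintro A ⟨hA, _⟩
    exact TopologicalSpace.isOpen_generateFrom_of_mem hA
  -- induced topology on K
  let f : K → H := fun k => k.1.2
  have hsc : @SecondCountableTopology K
      (TopologicalSpace.induced f (TopologicalSpace.generateFrom N)) := by
    have h1 : @SecondCountableTopology H (TopologicalSpace.generateFrom N) :=
      @SecondCountableTopology.mk H (TopologicalSpace.generateFrom N) ⟨N, hNc, rfl⟩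
    exact @TopologicalSpace.secondCountableTopology_induced K H (TopologicalSpace.generateFrom N) h1 f
  obtain ⟨T, hTc, hTd⟩ : ∃ T : Set K, T.Countable ∧
      ∀ k : K, ∃ u : ℕ → K, (∀ n, u n ∈ T) ∧ Tendsto (fun n => f (u n)) atTop (𝓝 (f k)) := by
    let τ : TopologicalSpace K := TopologicalSpace.induced f (TopologicalSpace.generateFrom N)
    have : SecondCountableTopology K := hsc
    obtain ⟨T, hTc, hTd⟩ := TopologicalSpace.exists_countable_dense K
    refine ⟨T, hTc, fun k => ?_⟩
    obtain ⟨u, hu, hlim⟩ := mem_closure_iff_seq_limit.1 (hTd k)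
    refine ⟨u, hu, ?_⟩
    have hcont : @Continuous K H τ tH f :=
      continuous_le_rng hfine continuous_induced_dom
    exact (hcont.tendsto k).comp hlim
  -- the fibre over the identity
  let M : Subgroup G := K.comap (MonoidHom.inl G H)
  have hMclosed : IsClosed (M : Set G) := by
    have : (M : Set G) = (fun g : G => ((g, 1) : G × H)) ⁻¹' (K : Set (G × H)) := rfl
    rw [this]
    exact hK.preimage (by fun_prop)
  have := hsep M hMclosed
  obtain ⟨S, hSc, hSd⟩ := TopologicalSpace.exists_countable_dense M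
  -- the countable dense set
  let mulmap : K × M → K := fun p => p.1 * ⟨(p.2.1, 1), p.2.2⟩
  refine ⟨⟨mulmap '' (T ×ˢ S), (hTc.prod hSc).image _, ?_⟩⟩
  intro k
  rw [mem_closure_iff]
  intro O hO hkO
  obtain ⟨O', hO', rfl⟩ := isOpen_induced_iff.1 hO
  obtain ⟨u, huT, hulim⟩ := hTd k
  obtain ⟨g', hg'⟩ := exists_cluster (fun n => (u n).1.1)
  -- (g', h) belongs to K
  have key : ∀ W ∈ 𝓝 ((g', k.1.2) : G × H), ∃ n, (u n).1 ∈ W := by
    intro W hW
    rw [nhds_prod_eq, Filter.mem_prod_iff] at hW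
    obtain ⟨A, hA, B, hB, hAB⟩ := hW
    have h1 : ∀ᶠ n in atTop, f (u n) ∈ B := hulim hB
    obtain ⟨m, hm⟩ := Filter.eventually_atTop.1 h1
    obtain ⟨n, hmn, hn⟩ := hg' A hA m
    exact ⟨n, hAB ⟨hn, hm n hmn⟩⟩
  have hmem : ((g', k.1.2) : G × H) ∈ K := by
    have : ((g', k.1.2) : G × H) ∈ closure (K : Set (G × H)) := by
      rw [mem_closure_iff_nhds]
      intro W hW
      obtain ⟨n, hn⟩ := key W hW
      exact ⟨(u n).1, hn, (u n).2⟩
    rwa [hK.closure_eq] at this
  let z : G := g'⁻¹ * k.1.1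
  have hz : z ∈ M := by
    change ((z, 1) : G × H) ∈ K
    have : ((z, 1) : G × H) = (g', k.1.2)⁻¹ * k.1 := by
      ext <;> simp [z]
    rw [this]
    exact K.mul_mem (K.inv_mem hmem) k.2
  -- continuity of multiplication
  have hcont : Continuous (fun p : (G × H) × M => p.1 * ((p.2.1, 1) : G × H)) := by
    fun_prop
  have hval : (fun p : (G × H) × M => p.1 * ((p.2.1, 1) : G × H)) ((g', k.1.2), ⟨z, hz⟩) = k.1 := by
    ext <;> simp [z]
  have hnh : (fun p : (G × H) × M => p.1 * ((p.2.1, 1) : G × H)) ⁻¹' O' ∈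
      𝓝 (((g', k.1.2), ⟨z, hz⟩) : (G × H) × M) := by
    apply hcont.continuousAt
    rw [hval]
    exact hO'.mem_nhds hkO
  rw [nhds_prod_eq, Filter.mem_prod_iff] at hnh
  obtain ⟨A, hA, B, hB, hAB⟩ := hnh
  obtain ⟨n, hn⟩ := key A hA
  obtain ⟨s, hsB, hsS⟩ := mem_closure_iff_nhds.1 (hSd ⟨z, hz⟩) B hB
  refine ⟨mulmap (u n, s), ?_, ⟨(u n, s), ⟨huT n, hsS⟩, rfl⟩⟩
  exact hAB (show ((u n).1, s) ∈ A ×ˢ B from ⟨hn, hsB⟩)

end Pool.Agent.Results.MP_c502b8_gt.CountableNetworkFactor
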